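import Pool.Agent.V5helper32.DF.Exg

set_option autoImplicit false

/-! # Positive definite quadratic forms over integral group rings and their vectors of length two

Let `Γ` be a torsion-free group and `ψ` a nonsingular quadratic form over `ℤΓ` which is positive
definite: the coefficient of the identity in `λ(x, x)`, the length of `x`, is positive for `x ≠ 0`,
where `λ = ψ + ψ*`. If the elements of the basis have length two, then the form becomes equal to the
form obtained from its augmentation after the elements of the basis have been multiplied by elements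
of `Γ`; so it is simply isometric to a form over `ℤ`. If the form is just generated by vectors of
length two, it is isometric to the form obtained from its augmentation. Both statements fail for
each nontrivial torsion-free group if one vector of length four is allowed in the basis.

Outline of the proof. A Bessel inequality for the dual basis bounds the coefficients and the size of
the support of a vector `x` of length two, and as the form is even the support is connected for a
fixed finite generating set of differences; so each vector is non-orthogonal to only finitely many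
vectors of length two. The classes of the relation generated by non-orthogonality have diameter two
and are finite, so the group, being torsion-free, permutes them freely. -/

namespace Pool.Agent.Results.MP_98022b_gt.DefiniteForms

open Matrix

section defs

variable {Γ : Type} [Group Γ]

/-- the adjoint (conjugate transpose) of a matrix over `ℤΓ`, for the involution `g ↦ g⁻¹` -/
noncomputable def adjoint {κ μ : Type} (A : Matrix κ μ (MonoidAlgebra ℤ Γ)) :
    Matrix μ κ (MonoidAlgebra ℤ Γ) :=
  Matrix.of fun j i => MonoidAlgebra.mapDomain (fun g => g⁻¹) (A i j)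

/-- the symmetric form `λ = ψ + ψ*` of the quadratic form `ψ` -/
noncomputable def symmetrization {κ : Type} (ψ : Matrix κ κ (MonoidAlgebra ℤ Γ)) :
    Matrix κ κ (MonoidAlgebra ℤ Γ) := ψ + adjoint ψ

/-- the value `x A y*` of the sesquilinear form with the matrix `A` on the row vectors `x`, `y` -/
noncomputable def value {n : ℕ} (A : Matrix (Fin n) (Fin n) (MonoidAlgebra ℤ Γ))
    (x y : Fin n → MonoidAlgebra ℤ Γ) : MonoidAlgebra ℤ Γ :=
  ∑ i, ∑ j, x i * A i j * MonoidAlgebra.mapDomain (fun g => g⁻¹) (y j)

/-- the length of `x` for the quadratic form `ψ`: the coefficient of the identity in `λ(x, x)` -/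
noncomputable def length {n : ℕ} (ψ : Matrix (Fin n) (Fin n) (MonoidAlgebra ℤ Γ))
    (x : Fin n → MonoidAlgebra ℤ Γ) : ℤ := (value (symmetrization ψ) x x).coeff 1

/-- positive definite quadratic forms -/
def PositiveDefinite {n : ℕ} (ψ : Matrix (Fin n) (Fin n) (MonoidAlgebra ℤ Γ)) : Prop :=
  ∀ x, x ≠ 0 → 0 < length ψ x

/-- isometry of quadratic forms (matrices modulo the matrices `χ - χ*`) -/
def Isometric {κ : Type} [Fintype κ] [DecidableEq κ] (ψ ψ' : Matrix κ κ (MonoidAlgebra ℤ Γ)) :
    Prop :=
  ∃ (E : (Matrix κ κ (MonoidAlgebra ℤ Γ))ˣ) (χ : Matrix κ κ (MonoidAlgebra ℤ Γ)),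
    E.val * ψ * adjoint E.val = ψ' + (χ - adjoint χ)

/-- the form `ℤΓ ⊗ θ` obtained from the form `θ` over `ℤ` -/
noncomputable def extend {κ : Type} (θ : Matrix κ κ ℤ) : Matrix κ κ (MonoidAlgebra ℤ Γ) :=
  θ.map (MonoidAlgebra.single 1)

/-- the augmentation of the form `ψ`: each group element is replaced by `1` -/
noncomputable def augmentation {κ : Type} (ψ : Matrix κ κ (MonoidAlgebra ℤ Γ)) : Matrix κ κ ℤ :=
  ψ.map fun x => x.coeff.sum fun _ c => c

end defs

section aux

open TH6.LF Pool.Agent.V5helper32.DF

variable {Γ : Type} [Group Γ]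

theorem extend_augmentation {κ : Type} (ψ : Matrix κ κ (MonoidAlgebra ℤ Γ)) :
    extend (augmentation ψ) = Tr ψ := by
  ext1 i j
  show MonoidAlgebra.single 1 ((ψ i j).coeff.sum fun _ c => c) = tr (ψ i j)
  induction ψ i j using MonoidAlgebra.induction_linear with
  | zero =>
    rw [tr_eq, map_zero]
    simp
  | add a b ha hb =>
    rw [tr_add, ← ha, ← hb, ← MonoidAlgebra.single_add, MonoidAlgebra.coeff_add,
      Finsupp.sum_add_index']
    · intro _; rfl
    · intro _ _ _; rfl
  | single g m =>
    rw [tr_single, MonoidAlgebra.coeff_single, Finsupp.sum_single_index rfl]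

theorem length_eq {n : ℕ} (ψ : Matrix (Fin n) (Fin n) (MonoidAlgebra ℤ Γ))
    (x : Fin n → MonoidAlgebra ℤ Γ) : length ψ x = 2 * (fm ψ x x).coeff 1 :=
  Bf_self ψ x

theorem fm_single {n : ℕ} (A : Matrix (Fin n) (Fin n) (MonoidAlgebra ℤ Γ)) (i : Fin n) :
    fm A (Pi.single i 1) (Pi.single i 1) = A i i := by
  unfold fm
  rw [Finset.sum_eq_single_of_mem i (Finset.mem_univ _)]
  · rw [Finset.sum_eq_single_of_mem i (Finset.mem_univ _)]
    · simp
    · intro k _ hk
      simp [hk]
  · intro k _ hk
    refine Finset.sum_eq_zero fun l _ => ?_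
    simp [hk]

end aux

open TH6.LF Pool.Agent.V5helper32.DF in
/-- Let `Γ` be a torsion-free group.

(1) Let `ψ` be a nonsingular positive definite quadratic form on `(ℤΓ)ⁿ`, and `ε(ψ)` the form over `ℤ`
obtained from it by the augmentation.
(a) If the elements of the standard basis have length two, there are `u₁, …, uₙ ∈ Γ` such that
`diag(u₁, …, uₙ)` is an isometry from `ψ` to `ℤΓ ⊗ ε(ψ)`.
(b) If the vectors of length two generate `(ℤΓ)ⁿ`, then `ψ` is isometric to `ℤΓ ⊗ ε(ψ)`.

(2) If `Γ` is nontrivial, there is a nonsingular positive definite quadratic form on `(ℤΓ)⁸` for which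
one element of the standard basis has length four and the others have length two, and which is not
isometric to `ℤΓ ⊗ θ` for any form `θ` over `ℤ`. -/
theorem result (Γ : Type) [Group Γ] (htf : ∀ g : Γ, ∀ k : ℕ, 0 < k → g ^ k = 1 → g = 1) :
    (∀ (n : ℕ) (ψ : Matrix (Fin n) (Fin n) (MonoidAlgebra ℤ Γ)),
      IsUnit (symmetrization ψ) → PositiveDefinite ψ →
      ((∀ i, length ψ (Pi.single i 1) = 2) →
        ∃ (u : Fin n → Γ) (χ : Matrix (Fin n) (Fin n) (MonoidAlgebra ℤ Γ)),
          diagonal (fun i => MonoidAlgebra.single (u i) (1 : ℤ)) * ψ *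
            adjoint (diagonal (fun i => MonoidAlgebra.single (u i) (1 : ℤ))) =
          extend (augmentation ψ) + (χ - adjoint χ)) ∧
      (Submodule.span (MonoidAlgebra ℤ Γ) {x | length ψ x = 2} = ⊤ →
        Isometric ψ (extend (augmentation ψ)))) ∧
    (Nontrivial Γ → ∃ ψ : Matrix (Fin 8) (Fin 8) (MonoidAlgebra ℤ Γ),
      IsUnit (symmetrization ψ) ∧ PositiveDefinite ψ ∧
      (∀ i, i ≠ 0 → length ψ (Pi.single i 1) = 2) ∧ length ψ (Pi.single 0 1) = 4 ∧
      ∀ θ : Matrix (Fin 8) (Fin 8) ℤ, ¬ Isometric ψ (extend θ)) := by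
  classical
  constructor
  · intro n ψ hu hp
    obtain ⟨L, hL⟩ := hu
    have h1 : (ψ + adj ψ) * L⁻¹.val = 1 := by
      have : L.val = ψ + adj ψ := hL
      rw [← this]
      exact L.mul_inv
    have h2 : L⁻¹.val * (ψ + adj ψ) = 1 := by
      have : L.val = ψ + adj ψ := hL
      rw [← this]
      exact L.inv_mul
    have hset : {x : Fin n → MonoidAlgebra ℤ Γ | length ψ x = 2} =
        {x | (fm ψ x x).coeff 1 = 1} := by
      ext x
      rw [Set.mem_ofPred_eq, Set.mem_ofPred_eq, length_eq]
      omega
    obtain ⟨_, hiso, hdiag⟩ := main htf ψ L⁻¹.val h1 h2 (fun x hx => by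
      have := hp x hx
      rw [length_eq] at this
      omega)
    rw [hset]
    constructor
    · intro hd
      obtain ⟨u, χ, h⟩ := hdiag (fun i => by
        have := hd i
        rw [length_eq, fm_single] at this
        omega)
      refine ⟨u, χ, ?_⟩
      rw [extend_augmentation]
      exact h
    · intro htop
      obtain ⟨E, E', χ, e1, e2, e3⟩ := hiso htop
      refine ⟨⟨E, E', e1, e2⟩, χ, ?_⟩
      rw [extend_augmentation]
      exact e3
  · intro hnt
    obtain ⟨s, hs⟩ := exists_ne (1 : Γ)
    have hs2 : s * s ≠ 1 := fun h => hs (htf s 2 two_pos (by rw [sq]; exact h))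
    have hdg : ∀ g : Γ, g ≠ 1 → (MonoidAlgebra.single g (1 : ℤ) : MonoidAlgebra ℤ Γ).coeff 1 = 0 := by
      intro g hg
      simp [hg]
    have h11 : (1 : MonoidAlgebra ℤ Γ).coeff 1 = 1 := by rw [MonoidAlgebra.one_def]; simp
    refine ⟨Ph s ψ8, ⟨⟨Ph s Λ8, Ph s K8, La_mul s, mul_La s⟩, (psi_add s).symm⟩, ?_, ?_, ?_, ?_⟩
    · intro x hx
      rw [length_eq]
      have := psi_pos s x hx
      omega
    · intro i hi
      rw [length_eq, fm_single]
      have h3 : Ph s ψ8 i i = 1 := by
        fin_cases i <;> simp [Ph, ψ8] at hi ⊢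
      rw [h3, h11]
      norm_num
    · rw [length_eq, fm_single]
      have h3 : Ph s ψ8 0 0 = MonoidAlgebra.single (s ^ (2 : ℤ)) 1 +
          MonoidAlgebra.single (s ^ (1 : ℤ)) 1 + (1 + 1) := by
        simp [Ph, ψ8, ph_two]
        rw [ph_t, ph_t]
        norm_num
      rw [h3, coeff_add', coeff_add', coeff_add', h11, hdg _ (by rw [zpow_two]; exact hs2),
        hdg _ (by rw [zpow_one]; exact hs)]
      norm_num
    · rintro θ ⟨E, χ, h⟩
      have h' : E.val * Ph s ψ8 * adj E.val = extend θ + (χ - adj χ) := h
      have hcond : ∀ i j g, g ≠ 1 →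
          ((E.val * (Ph s ψ8 + adj (Ph s ψ8)) * adj E.val) i j).coeff g = 0 := by
        intro i j g hg
        have h3 : E.val * (Ph s ψ8 + adj (Ph s ψ8)) * adj E.val =
            E.val * Ph s ψ8 * adj E.val + adj (E.val * Ph s ψ8 * adj E.val) := by
          rw [adj_mul, adj_mul, adj_adj, Matrix.mul_add, Matrix.add_mul, ← Matrix.mul_assoc]
        have h4 : adj (χ - adj χ) = -(χ - adj χ) := by
          rw [adj_sub, adj_adj, neg_sub]
        rw [h3, h', adj_add, h4]
        have h5 : extend θ + (χ - adj χ) + (adj (extend θ) + -(χ - adj χ)) =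
            extend θ + adj (extend θ) := by abel
        rw [h5, Matrix.add_apply, coeff_add', coeff_adj]
        show (MonoidAlgebra.single 1 (θ i j) : MonoidAlgebra ℤ Γ).coeff g +
          (MonoidAlgebra.single 1 (θ j i) : MonoidAlgebra ℤ Γ).coeff g⁻¹ = 0
        have hg' : g⁻¹ ≠ 1 := inv_ne_one.2 hg
        rw [MonoidAlgebra.coeff_single, MonoidAlgebra.coeff_single,
          Finsupp.single_eq_of_ne hg, Finsupp.single_eq_of_ne hg', add_zero]
      obtain ⟨χ', hχ'⟩ := exists_iso htf (Ph s ψ8) E.val E⁻¹.val E.mul_inv E.inv_mul hcond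
      refine psi_not s hs hs2 (Tr E⁻¹.val * E.val) (E⁻¹.val * Tr E.val) χ' ?_ hχ'
      calc E⁻¹.val * Tr E.val * (Tr E⁻¹.val * E.val)
          = E⁻¹.val * (Tr E.val * Tr E⁻¹.val) * E.val := by simp only [Matrix.mul_assoc]
        _ = 1 := by rw [← Tr_mul, E.mul_inv, Tr_one, Matrix.mul_one, E.inv_mul]

end Pool.Agent.Results.MP_98022b_gt.DefiniteForms
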