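import Pool.Agent.V5helper8.GP.Fin

/-!
# Extensions whose kernel is a graph product over an infinite graph

`C` is any class of groups with the closure properties `ClosedE C` (subgroups, finite products, free
products, overgroups of finite index, directed colimits, and the extension criterion) which contains
the groups `F ⋊ ℤ` for all free groups `F` and all automorphisms of `F`. All this is published for the
class of the groups which satisfy the `K`- and `L`-theoretic Farrell–Jones conjecture with coefficients
and finite wreath products; for an aspherical complex with torsion-free fundamental group in this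
class the assembly map in `L`-theory is an equivalence.

Let `N` be a normal subgroup of `G` which is a graph product of its subgroups `A v`, `v ∈ V`, along a
graph `Λ` with any, possibly infinite, set `V` of vertices, let the conjugation by the elements of `G`
permute the `N`-conjugacy classes of the `A v`, and let `G ⧸ N` and the groups `A v ⟨g⟩`, `g` in the
normalizer of `A v`, be in `C`. We prove that `G` is in `C` if each `g ∈ G` satisfies one of the
following conditions:

(a) (`PermutesLocally`) for every finite set of vertices there is `n ∈ N` such that `n g` conjugates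
each of their vertex groups to some vertex group;

(b) (`Separates`) for each vertex `v` there is `k > 0` such that no power of `g ^ k` maps the class of
`A v` to the class of `A w` for a vertex `w` adjacent to `v`.

Condition (b) holds for all `g` if the graph is locally finite. In (a) there is no condition on the
orbits of `g` on the graph: for example all graph-wreath products of groups `A`, `Q` in `C` are in `C`, for
every action of `Q` on a graph, such as the action of `ℤ` on its Cayley graph with respect to the
generators `n !`, `n ≥ 1`, for which (b) fails.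

More generally `N` may be a relative graph product (`IsRelGraphProduct`): it is generated by the `A v` and
one more subgroup `Q`, with the relations that `A v` and `A w` commute for adjacent `v`, `w`, and that
`A v` commutes with a subgroup `L v` of `Q`. For instance `N` may be the free product of a graph product
and any group `Q`, and every graph product is a relative graph product for every set of its vertices.
Then `G ⧸ N` has to be replaced by the quotient of `G` by the normal closure of the `A v`, and in (a)
`n g` has to normalize `Q` (`n g Q (n g)⁻¹ ⊆ Q` suffices). If `Q` is free, `G ⧸ N` is sufficient.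

Outline of the proof (library `Pool.Agent.V5helper8.GP`). By the criterion for extensions of the
starting library it suffices to realize the conjugation by `g` on finite subsets of `N` by inner
automorphisms of groups in `C`. Let `γ = n g` map the vertex groups `A v`, `v ∈ S₀`, `S₀` finite, to the
vertex groups `A (π v)`. Let `M` be generated by the vertex groups of a finite set `S` which contains
`S₀` and `π S₀`, and let `P` be the HNN extension of `M` with the stable letter `t` acting on the
`A v`, `v ∈ S₀`, like `γ`. The kernel `K` of the homomorphism `P → ℤ`, `t ↦ 1`, `M ↦ 0`, is the graph product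
of the groups `t ^ k (A v) t ^ (-k)`, `k ∈ ℤ`, `v ∈ S`, along the graph in which two of them are adjacent
if they are of this form with the same `k` and adjacent `v`. The universal property is proved with
actions of `P` on `ℤ × H`, and the same actions show that
`t ^ n (A v) t ^ (-n) = A w` implies that the path `v, π v, π² v, …` stays in `S₀` and ends at `w`. So if
`n` is divisible by `(|S₀| + 1)!` then `v` is periodic and `w = v`. Therefore the extension `P` of `ℤ` by `K`
has the property (b), although `G` had not, and for such extensions `P ∈ C` follows from the unused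
library theorem `Q30.FJ.gpk_main`.
-/

set_option autoImplicit false

namespace Pool.Agent.Results.MP_98022b_gt.GraphProductKernels

open Pool.Agent.Y110.FJ (ClosedE GrP IsPerm)

section defs

variable {G : Type} [Group G] {V : Type}

/-- `N` is the relative graph product of its subgroups `A v` and `Q`: it is generated by them, with the
relations between `A v` and `A w` for adjacent `v`, `w`, and between `A v` and `L v ≤ Q`. For `Q = ⊥` it
is the graph product of the `A v` along `Λ`. -/
structure IsRelGraphProduct (Λ : SimpleGraph V) (A : V → Subgroup G) (Q : Subgroup G)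
    (L : V → Subgroup G) (N : Subgroup G) : Prop where
  le : ∀ v, A v ≤ N
  leQ : Q ≤ N
  leL : ∀ v, L v ≤ Q
  gen : ∀ M : Subgroup G, (∀ v, A v ≤ M) → Q ≤ M → N ≤ M
  comm : ∀ v w, Λ.Adj v w → ∀ a ∈ A v, ∀ b ∈ A w, a * b = b * a
  commL : ∀ v, ∀ a ∈ A v, ∀ b ∈ L v, a * b = b * a
  univ : ∀ (H : Type) [Group H] (f : ∀ v, A v →* H) (h : Q →* H),
    (∀ v w, Λ.Adj v w → ∀ (a : A v) (b : A w), f v a * f w b = f w b * f v a) →
    (∀ v (a : A v) (b : L v), f v a * h ⟨b, leL v b.2⟩ = h ⟨b, leL v b.2⟩ * f v a) →
    ∃ φ : N →* H, (∀ v (a : A v), φ ⟨a, le v a.2⟩ = f v a) ∧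
      ∀ x : Q, φ ⟨x, leQ x.2⟩ = h x

/-- `g` maps `A` onto `B` by conjugation -/
def Conj (g : G) (A B : Subgroup G) : Prop := ∀ x, x ∈ A ↔ g * x * g⁻¹ ∈ B

/-- `g` maps the `N`-conjugacy class of `A` to that of `B` -/
def ConjClass (N : Subgroup G) (g : G) (A B : Subgroup G) : Prop := ∃ n ∈ N, Conj (n * g) A B

/-- (a) -/
def PermutesLocally (A : V → Subgroup G) (Q N : Subgroup G) (g : G) : Prop :=
  ∀ s : Finset V, ∃ n ∈ N, (∀ q ∈ Q, n * g * q * (n * g)⁻¹ ∈ Q) ∧
    ∀ v ∈ s, ∃ w, Conj (n * g) (A v) (A w)

/-- (b) -/
def Separates (Λ : SimpleGraph V) (A : V → Subgroup G) (N : Subgroup G) (g : G) : Prop :=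
  ∀ v : V, ∃ k : ℕ, 0 < k ∧ ∀ (m : ℤ) (w : V),
    ConjClass N (g ^ ((k : ℤ) * m)) (A v) (A w) → ¬ Λ.Adj v w

/-- the hypotheses on the extension `G` with the kernel `N` -/
structure IsExtension (C : ∀ (G : Type) [Group G], Prop) (Λ : SimpleGraph V) (A : V → Subgroup G)
    (Q : Subgroup G) (L : V → Subgroup G) (N : Subgroup G) : Prop where
  normal : N.Normal
  prod : IsRelGraphProduct Λ A Q L N
  ne : ∀ v, A v ≠ ⊥
  perm : ∀ (g : G) (v : V), ∃ w, ConjClass N g (A v) (A w)
  tori : ∀ (v : V) (g : G), Conj g (A v) (A v) → C ↥(A v ⊔ Subgroup.zpowers g)
  cases : ∀ g : G, PermutesLocally A Q N g ∨ Separates Λ A N g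

end defs

/-- (1) -/
def HasExtensions (C : ∀ (G : Type) [Group G], Prop) : Prop :=
  ∀ (G : Type) [Group G] (V : Type) (Λ : SimpleGraph V) (A : V → Subgroup G) (Q : Subgroup G)
    (L : V → Subgroup G) (N : Subgroup G), IsExtension C Λ A Q L N →
    C (G ⧸ Subgroup.normalClosure {x | ∃ v, x ∈ A v}) → C G

/-- (2) -/
def HasFreeExtensions (C : ∀ (G : Type) [Group G], Prop) : Prop :=
  ∀ (G : Type) [Group G] (V : Type) (Λ : SimpleGraph V) (A : V → Subgroup G) (Q : Subgroup G)
    (L : V → Subgroup G) (N : Subgroup G) [N.Normal], IsExtension C Λ A Q L N → IsFreeGroup Q →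
    C (G ⧸ N) → C G

/-- (3) -/
def HasGraphWreathProducts (C : ∀ (G : Type) [Group G], Prop) : Prop :=
  ∀ (V Q A : Type) [Group Q] [Group A] [MulAction Q V] (Λ : SimpleGraph V)
    (α : Q →* MulAut (GrP Λ (fun _ => A))), (∀ q : Q, IsPerm Λ A (MulAction.toPerm q) (α q)) →
    C A → C Q → C (GrP Λ (fun _ => A) ⋊[α] Q)

/-- Let `C` be a class of groups with the properties `ClosedE C` which contains `F ⋊ ℤ` for all free
groups `F` and all automorphisms.

(1) If `G` is an extension as in `IsExtension` and the quotient of `G` by the normal closure of the `A v`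
is in `C`, then `G` is in `C`.

(2) If `Q` is a free group (for example `Q = ⊥`), it suffices that `G ⧸ N` is in `C`.

(3) If `A` and `Q` are in `C` and `Q` acts by automorphisms `α` on the graph product of copies of `A` along
a graph `Λ`, permuting the vertex groups, then this semidirect product, the graph-wreath product of `A`
and `Q`, is in `C`. -/
theorem result (C : ∀ (G : Type) [Group G], Prop) (hC : ClosedE C)
    (hF : ∀ (X : Type) (α : MulAut (FreeGroup X)),
      C (FreeGroup X ⋊[zpowersHom (MulAut (FreeGroup X)) α] Multiplicative ℤ)) :
    HasExtensions C ∧ HasFreeExtensions C ∧ HasGraphWreathProducts C := by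
  refine ⟨?_, ?_, ?_⟩
  · intro G _ V Λ A Q L N h hQ
    have := h.normal
    exact Pool.Agent.V5helper8.GP.fin_gen (N := N) hC hF
      ⟨h.prod.le, h.prod.leQ, h.prod.leL, h.prod.gen, h.prod.comm, h.prod.commL, h.prod.univ⟩
      h.ne h.perm h.tori hQ h.cases
  · intro G _ V Λ A Q L N _ h hQf hQ
    exact Pool.Agent.V5helper8.GP.fin_free hC hF
      ⟨h.prod.le, h.prod.leQ, h.prod.leL, h.prod.gen, h.prod.comm, h.prod.commL, h.prod.univ⟩
      hQf h.ne h.perm h.tori hQ h.cases
  · intro V Q A _ _ _ Λ α hα hA hQ
    exact Pool.Agent.V5helper8.GP.gw (Pool.Agent.V5helper8.GP.closedF hC hF) hα hA hQ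

end Pool.Agent.Results.MP_98022b_gt.GraphProductKernels
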