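import Pool.Agent.V5helper31.GF.Main

set_option autoImplicit false

/-! # Surgery obstructions and plumbing along the triangular lattice

Let `Γ` be any group, generated by a set `S`.  Every class in Wall's groups `L_{2k}(ℤΓ)`, in the
simple (and so also in the free) decoration, is represented by a form given by plumbing along a
finite graph in the plane: the basis elements sit at different points of the triangular lattice, the
form vanishes on the basis elements and between points which are not neighbours, between neighbours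
it is `0` or `± s` with `s = 1`, `s ∈ S` or `s⁻¹ ∈ S`, and each basis element pairs nontrivially with
at most three others.

Outline of the proof.  For a form `ψ` on `ℤΓⁿ` the vectors `(v₁, (ψv)₁, v₂, (ψv)₂, ...)` are
computed from `(v₁, 0, v₂, 0, ...)` by a sequence of elementary operations `x_i += g x_j` between
neighbouring variables, `g = ± s`.  Take one basis element for each `v_i`, two for each value of a
variable after one step (the value and the Lagrange multiplier of the equation that defines it), and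
couple the final values of `v_i` and `(ψv)_i`.  Eliminating the values and multipliers, which span a
hyperbolic form, one gets `ψ` back. -/

namespace Pool.Agent.Results.MP_98022b_gt.LatticeForms

open Matrix

section defs

variable {Γ : Type} [Group Γ]

/-- the adjoint (conjugate transpose) of a matrix over `ℤΓ`, for the involution `g ↦ g⁻¹` -/
noncomputable def adjoint {κ μ : Type} (A : Matrix κ μ (MonoidAlgebra ℤ Γ)) :
    Matrix μ κ (MonoidAlgebra ℤ Γ) :=
  Matrix.of fun j i => MonoidAlgebra.mapDomain (fun g => g⁻¹) (A i j)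

/-- the `ε`-symmetric form `λ = ψ + εψ*` of the `ε`-quadratic form `ψ` -/
noncomputable def symmetrization {κ : Type} (ε : ℤ) (ψ : Matrix κ κ (MonoidAlgebra ℤ Γ)) :
    Matrix κ κ (MonoidAlgebra ℤ Γ) := ψ + ε • adjoint ψ

/-- the square matrix `x` over `ℤΓ` is zero in the Whitehead group: stabilised by an identity block,
it is `± g` on one diagonal entry times a product of commutators of invertible matrices -/
def ZeroInWh {κ : Type} [Fintype κ] [DecidableEq κ]
    (x : Matrix κ κ (MonoidAlgebra ℤ Γ)) : Prop :=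
  ∃ (m : ℕ) (g : Γ) (ε : ℤˣ)
    (C : (Matrix (κ ⊕ Fin (m + 1)) (κ ⊕ Fin (m + 1)) (MonoidAlgebra ℤ Γ))ˣ),
    C ∈ commutator (Matrix (κ ⊕ Fin (m + 1)) (κ ⊕ Fin (m + 1)) (MonoidAlgebra ℤ Γ))ˣ ∧
    Matrix.fromBlocks x 0 0 (1 : Matrix (Fin (m + 1)) (Fin (m + 1)) (MonoidAlgebra ℤ Γ)) =
      Matrix.diagonal (fun i : κ ⊕ Fin (m + 1) =>
          if i = Sum.inr (0 : Fin (m + 1)) then
            (MonoidAlgebra.single g ((ε : ℤ)) : MonoidAlgebra ℤ Γ) else 1) *
        (↑C : Matrix (κ ⊕ Fin (m + 1)) (κ ⊕ Fin (m + 1)) (MonoidAlgebra ℤ Γ))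

/-- simple isometry of `ε`-quadratic forms (matrices modulo the matrices `χ - εχ*`) -/
def SimplyIsometric {κ : Type} [Fintype κ] [DecidableEq κ] (ε : ℤ)
    (ψ ψ' : Matrix κ κ (MonoidAlgebra ℤ Γ)) : Prop :=
  ∃ (E : (Matrix κ κ (MonoidAlgebra ℤ Γ))ˣ) (χ : Matrix κ κ (MonoidAlgebra ℤ Γ)),
    ZeroInWh E.val ∧ E.val * ψ * adjoint E.val = ψ' + (χ - ε • adjoint χ)

/-- `ψ ⊕ H`, with `H` the sum of `N` hyperbolic planes -/
noncomputable def plusPlanes {n : ℕ} (N : ℕ) (ψ : Matrix (Fin n) (Fin n) (MonoidAlgebra ℤ Γ)) :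
    Matrix (Fin n ⊕ (Fin N ⊕ Fin N)) (Fin n ⊕ (Fin N ⊕ Fin N)) (MonoidAlgebra ℤ Γ) :=
  fromBlocks ψ 0 0 (fromBlocks 0 1 0 0)

/-- `a` and `b` are neighbours in the triangular lattice (the points of `ℤ²`, with the neighbours
`± (1, 0)`, `± (0, 1)`, `± (1, 1)` of `0`) -/
def Neighbours (a b : ℤ × ℤ) : Prop :=
  b = (a.1 + 1, a.2) ∨ b = (a.1, a.2 + 1) ∨ b = (a.1 + 1, a.2 + 1) ∨
    a = (b.1 + 1, b.2) ∨ a = (b.1, b.2 + 1) ∨ a = (b.1 + 1, b.2 + 1)

/-- A lattice form: `φ` vanishes on the basis elements; the entries of `λ = φ + εφ*` are `0` or `± s`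
with `s = 1`, `s ∈ S` or `s⁻¹ ∈ S`; at most three entries in each row of `λ` are nonzero; and the
basis elements can be put at different points of the triangular lattice such that the entries of `λ`
between points which are not neighbours vanish. -/
def LatticeForm {κ : Type} (S : Set Γ) (ε : ℤ) (φ : Matrix κ κ (MonoidAlgebra ℤ Γ)) : Prop :=
  (∀ k, φ k k = 0) ∧
  (∀ k l, symmetrization ε φ k l = 0 ∨ ∃ s : Γ, (s = 1 ∨ s ∈ S ∨ s⁻¹ ∈ S) ∧
    (symmetrization ε φ k l = MonoidAlgebra.single s 1 ∨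
      symmetrization ε φ k l = MonoidAlgebra.single s (-1))) ∧
  (∀ k, {l | symmetrization ε φ k l ≠ 0}.ncard ≤ 3) ∧
  ∃ q : κ → ℤ × ℤ, Function.Injective q ∧
    ∀ k l, symmetrization ε φ k l ≠ 0 → Neighbours (q k) (q l)

end defs

open TH57.Thr TH6.LF TH6.CX Pool.Agent.R719.LF Pool.Agent.V5helper31.GF in
/-- Let `Γ` be any group, generated by `S`, and `ε = ±1`.  Every `ε`-quadratic form over `ℤΓ`
becomes, after adding hyperbolic planes, simply isometric to a lattice form. -/
theorem result (Γ : Type) [Group Γ] (S : Set Γ) (hS : Subgroup.closure S = ⊤) (ε : ℤ)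
    (hε : ε = 1 ∨ ε = -1) (n : ℕ) (ψ : Matrix (Fin n) (Fin n) (MonoidAlgebra ℤ Γ)) :
    ∃ (N : ℕ)
      (φ : Matrix (Fin n ⊕ (Fin N ⊕ Fin N)) (Fin n ⊕ (Fin N ⊕ Fin N)) (MonoidAlgebra ℤ Γ)),
      SimplyIsometric ε (plusPlanes N ψ) φ ∧ LatticeForm S ε φ := by
  classical
  obtain ⟨ν, i1, i2, φ, hiso, hd, q, hq, hadj, hval, hthree⟩ := lattice_form S hS hε ψ
  let w : Fin (Fintype.card ν) ≃ ν := (Fintype.equivFin ν).symm
  let e : Fin n ⊕ (Fin (Fintype.card ν) ⊕ Fin (Fintype.card ν)) ≃ Fin n ⊕ (ν ⊕ ν) :=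
    Equiv.sumCongr (Equiv.refl _) (Equiv.sumCongr w w)
  refine ⟨Fintype.card ν, φ.submatrix e e, ?_, fun k => hd _, fun k l => hval _ _, fun k => ?_,
    q ∘ e, hq.comp e.injective, fun k l h => hadj _ _ h⟩
  · have h1 := hiso.reindex e
    have h2 : (fromBlocks ψ 0 0 (hyp Γ ν)).submatrix e e = plusPlanes (Fintype.card ν) ψ := by
      ext1 a b
      rcases a with a | a | a <;> rcases b with b | b | b <;>
        simp [hyp, plusPlanes, e, Matrix.one_apply]
    rw [h2] at h1
    obtain ⟨E, χ, h3, h4⟩ := h1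
    exact ⟨E, χ, TT_explicit E h3, h4⟩
  · refine le_trans (Set.ncard_le_ncard_of_injOn e ?_ e.injective.injOn (Set.toFinite _))
      (hthree (e k))
    intro l hl
    exact hl

end Pool.Agent.Results.MP_98022b_gt.LatticeForms
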